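import Pool.Agent.H411R2.WSK.Conn

/-!
The periodic kagome lattice `K_n` through its edge coordinates `(x, i)`, `x ∈ (ℤ/n)²`, `i < 3`, and the
parity of the number of negatively oriented vertices, which is unchanged by Kempe changes.
-/

namespace Pool.Agent.U697.Kag

open Pool.Agent.H411R2.WSK

abbrev Pt (n : ℕ) := ZMod n × ZMod n

/-- the displacement of the `i`-th edge direction -/
def dl (n : ℕ) (i : Fin 3) : Pt n := if i = 0 then 0 else if i = 1 then (1, 0) else (0, 1)

theorem dl_zero (n : ℕ) : dl n 0 = 0 := rfl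
theorem dl_one (n : ℕ) : dl n 1 = (1, 0) := rfl
theorem dl_two (n : ℕ) : dl n 2 = (0, 1) := rfl

theorem dl_inj {n : ℕ} (hn : 2 ≤ n) : Function.Injective (dl n) := by
  have : Fact (1 < n) := ⟨by omega⟩
  intro i j h
  fin_cases i <;> fin_cases j <;> simp [dl, Prod.ext_iff] at h ⊢

theorem honeycomb_adj (n : ℕ) (x : Pt n) (i : Fin 3) :
    (honeycomb n).Adj (Sum.inl x) (Sum.inr (x - dl n i)) := by
  rw [honeycomb, SimpleGraph.fromRel_adj]
  refine ⟨by simp, Or.inl ⟨x, rfl, ?_⟩⟩
  fin_cases i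
  · left; simp [dl]
  · right; left; simp [dl]
  · right; right; simp [dl]

theorem honeycomb_adj_iff (n : ℕ) (x y : Pt n) :
    (honeycomb n).Adj (Sum.inl x) (Sum.inr y) ↔ ∃ i : Fin 3, y = x - dl n i := by
  constructor
  · intro h
    rw [honeycomb, SimpleGraph.fromRel_adj] at h
    obtain ⟨-, h | h⟩ := h
    · obtain ⟨z, hz, h⟩ := h
      have hz' : x = z := by simpa using hz
      subst hz'
      rcases h with h | h | h
      · exact ⟨0, by simpa [dl] using h⟩
      · exact ⟨1, by simpa [dl] using h⟩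
      · exact ⟨2, by simpa [dl] using h⟩
    · obtain ⟨z, hz, h⟩ := h
      simp at hz
  · rintro ⟨i, rfl⟩
    exact honeycomb_adj n x i

theorem honeycomb_not_adj_inl (n : ℕ) (x y : Pt n) :
    ¬ (honeycomb n).Adj (Sum.inl x) (Sum.inl y) := by
  intro h
  rw [honeycomb, SimpleGraph.fromRel_adj] at h
  obtain ⟨-, ⟨z, -, h⟩ | ⟨z, -, h⟩⟩ := h <;> simp at h

theorem honeycomb_not_adj_inr (n : ℕ) (x y : Pt n) :
    ¬ (honeycomb n).Adj (Sum.inr x) (Sum.inr y) := by
  intro h
  rw [honeycomb, SimpleGraph.fromRel_adj] at h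
  obtain ⟨-, ⟨z, h, -⟩ | ⟨z, h, -⟩⟩ := h <;> simp at h

/-- the edge of direction `i` at the vertex `(x, A)` -/
def ed {n : ℕ} (x : Pt n) (i : Fin 3) : (honeycomb n).edgeSet :=
  ⟨s(Sum.inl x, Sum.inr (x - dl n i)), honeycomb_adj n x i⟩

theorem ed_surj {n : ℕ} (e : (honeycomb n).edgeSet) : ∃ x i, ed x i = e := by
  obtain ⟨e, he⟩ := e
  induction e using Sym2.ind with
  | _ u v =>
    rw [SimpleGraph.mem_edgeSet] at he
    rcases u with x | x <;> rcases v with y | y
    · exact absurd he (honeycomb_not_adj_inl n x y)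
    · obtain ⟨i, hi⟩ := (honeycomb_adj_iff n x y).mp he
      exact ⟨x, i, by simp [ed, hi]⟩
    · obtain ⟨i, hi⟩ := (honeycomb_adj_iff n y x).mp he.symm
      exact ⟨y, i, by simp [ed, hi, Sym2.eq_swap]⟩
    · exact absurd he (honeycomb_not_adj_inr n x y)

theorem ed_inj {n : ℕ} (hn : 2 ≤ n) {x y : Pt n} {i j : Fin 3} (h : ed x i = ed y j) :
    x = y ∧ i = j := by
  have h1 : (s(Sum.inl x, Sum.inr (x - dl n i)) : Sym2 (Pt n ⊕ Pt n)) =
      s(Sum.inl y, Sum.inr (y - dl n j)) := congrArg Subtype.val h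
  rw [Sym2.eq_iff] at h1
  rcases h1 with ⟨h1, h2⟩ | ⟨h1, -⟩
  · have hx : x = y := by simpa using h1
    subst hx
    refine ⟨rfl, dl_inj hn ?_⟩
    simpa using h2
  · simp at h1

theorem kagome_adj {n : ℕ} (hn : 2 ≤ n) (x y : Pt n) (i j : Fin 3) :
    (kagome n).Adj (ed x i) (ed y j) ↔
      ¬ (x = y ∧ i = j) ∧ (x = y ∨ x - dl n i = y - dl n j) := by
  rw [kagome, SimpleGraph.lineGraph_adj_iff_exists]
  have h1 : ed x i ≠ ed y j ↔ ¬ (x = y ∧ i = j) := by
    constructor
    · rintro h ⟨rfl, rfl⟩; exact h rfl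
    · intro h h'; exact h (ed_inj hn h')
  rw [h1]
  refine and_congr_right fun _ => ?_
  simp only [ed, Sym2.mem_iff]
  constructor
  · rintro ⟨v, rfl | rfl, h | h⟩
    · left; simpa using h
    · simp at h
    · simp at h
    · right; simpa using h
  · rintro (rfl | h)
    · exact ⟨Sum.inl x, Or.inl rfl, Or.inl rfl⟩
    · exact ⟨Sum.inr (x - dl n i), Or.inr rfl, Or.inr (by rw [h])⟩

/-- the conditions on a function of the edge coordinates to be a proper colouring -/
def Good {n : ℕ} (f : Pt n → Fin 3 → Fin 3) : Prop :=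
  (∀ x i j, i ≠ j → f x i ≠ f x j) ∧
    (∀ y i j, i ≠ j → f (y + dl n i) i ≠ f (y + dl n j) j)

theorem good_of_coloring {n : ℕ} (hn : 2 ≤ n) (c : (kagome n).Coloring (Fin 3)) :
    Good (fun x i => c (ed x i)) := by
  constructor
  · intro x i j hij
    apply c.valid
    rw [kagome_adj hn]
    exact ⟨fun h => hij h.2, Or.inl rfl⟩
  · intro y i j hij
    apply c.valid
    rw [kagome_adj hn]
    exact ⟨fun h => hij h.2, Or.inr (by simp)⟩

/-- the function on edges given by a function of the edge coordinates -/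
noncomputable def lift {n : ℕ} (f : Pt n → Fin 3 → Fin 3) (e : (honeycomb n).edgeSet) : Fin 3 :=
  f (ed_surj e).choose (ed_surj e).choose_spec.choose

theorem lift_ed {n : ℕ} (hn : 2 ≤ n) (f : Pt n → Fin 3 → Fin 3) (x : Pt n) (i : Fin 3) :
    lift f (ed x i) = f x i := by
  have h := (ed_surj (ed x i)).choose_spec.choose_spec
  obtain ⟨h1, h2⟩ := ed_inj hn h
  exact congrArg₂ f h1 h2

theorem proper_iff {n : ℕ} (hn : 2 ≤ n) (g : (honeycomb n).edgeSet → Fin 3) :
    Proper (kagome n) g ↔ Good (fun x i => g (ed x i)) := by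
  constructor
  · intro h
    exact good_of_coloring hn (toCol g h)
  · rintro ⟨hA, hB⟩ e e' hadj
    obtain ⟨x, i, rfl⟩ := ed_surj e
    obtain ⟨y, j, rfl⟩ := ed_surj e'
    rw [kagome_adj hn] at hadj
    obtain ⟨hne, h | h⟩ := hadj
    · subst h
      exact hA x i j (fun hij => hne ⟨rfl, hij⟩)
    · have hij : i ≠ j := by
        rintro rfl
        exact hne ⟨by simpa using h, rfl⟩
      have := hB (x - dl n i) i j hij
      simp only [sub_add_cancel] at this
      rwa [h, sub_add_cancel] at this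

theorem lift_proper {n : ℕ} (hn : 2 ≤ n) {f : Pt n → Fin 3 → Fin 3} (hf : Good f) :
    Proper (kagome n) (lift f) := by
  rw [proper_iff hn]
  simpa [lift_ed hn] using hf

theorem ext_ed {n : ℕ} {g g' : (honeycomb n).edgeSet → Fin 3}
    (h : ∀ x i, g (ed x i) = g' (ed x i)) : g = g' := by
  funext e
  obtain ⟨x, i, rfl⟩ := ed_surj e
  exact h x i

/-! ### the parity -/

/-- `0` if the three colours at a vertex, the first two of which are `a` and `b`, are in the even
order, and `1` otherwise -/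
def od (a b : Fin 3) : ZMod 2 := if b = a + 1 then 0 else 1

/-- the number modulo `2` of negatively oriented vertices -/
noncomputable def par {n : ℕ} [NeZero n] (f : Pt n → Fin 3 → Fin 3) : ZMod 2 :=
  (∑ x, od (f x 0) (f x 1)) + ∑ y, od (f (y + dl n 0) 0) (f (y + dl n 1) 1)

set_option synthInstance.maxSize 1000 in
theorem local_flip' : ∀ (p0 p1 p2 : Fin 3) (u0 u1 u2 : Bool) (a b : Fin 3),
    (a ≠ b ∧ p0 ≠ p1 ∧ p0 ≠ p2 ∧ p1 ≠ p2 ∧
    (u0 = true → p0 = a ∨ p0 = b) ∧ (u1 = true → p1 = a ∨ p1 = b) ∧ (u2 = true → p2 = a ∨ p2 = b) ∧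
    (u0 = true → (p1 = a ∨ p1 = b) → u1 = true) ∧ (u0 = true → (p2 = a ∨ p2 = b) → u2 = true) ∧
    (u1 = true → (p0 = a ∨ p0 = b) → u0 = true) ∧ (u1 = true → (p2 = a ∨ p2 = b) → u2 = true) ∧
    (u2 = true → (p0 = a ∨ p0 = b) → u0 = true) ∧ (u2 = true → (p1 = a ∨ p1 = b) → u1 = true)) →
    od (if u0 then Equiv.swap a b p0 else p0) (if u1 then Equiv.swap a b p1 else p1) =
      od p0 p1 + ((if p0 = a ∧ u0 = true then 1 else 0) + (if p1 = a ∧ u1 = true then 1 else 0) +
        (if p2 = a ∧ u2 = true then 1 else 0)) := by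
  decide +kernel

theorem local_flip (p : Fin 3 → Fin 3) (u : Fin 3 → Bool) (a b : Fin 3) (hab : a ≠ b)
    (h1 : ∀ i j, i ≠ j → p i ≠ p j)
    (h2 : ∀ i, u i = true → p i = a ∨ p i = b)
    (h3 : ∀ i j, u i = true → (p j = a ∨ p j = b) → u j = true) :
    od (if u 0 then Equiv.swap a b (p 0) else p 0) (if u 1 then Equiv.swap a b (p 1) else p 1) =
      od (p 0) (p 1) + ∑ i, if p i = a ∧ u i = true then 1 else 0 := by
  rw [Fin.sum_univ_three]
  exact local_flip' (p 0) (p 1) (p 2) (u 0) (u 1) (u 2) a b ⟨hab, (h1 0 1 (by decide)),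
    (h1 0 2 (by decide)), (h1 1 2 (by decide)), (h2 0), (h2 1), (h2 2), (h3 0 1), (h3 0 2), (h3 1 0),
    (h3 1 2), (h3 2 0), (h3 2 1)⟩

theorem par_step {n : ℕ} [NeZero n] (hn : 2 ≤ n) {c c' : (kagome n).Coloring (Fin 3)}
    (h : KempeStep c c') : par (fun x i => c' (ed x i)) = par (fun x i => c (ed x i)) := by
  classical
  obtain ⟨a, b, hab, U, hU, hs⟩ := h.closed
  have hg := good_of_coloring hn c
  have hc' : ∀ x i, c' (ed x i) = if ed x i ∈ U then Equiv.swap a b (c (ed x i)) else c (ed x i) := by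
    intro x i
    split_ifs with h
    · exact hs.1 _ h
    · exact hs.2 _ h
  have hA : ∀ x : Pt n, od (c' (ed x 0)) (c' (ed x 1)) = od (c (ed x 0)) (c (ed x 1)) +
      ∑ i, if c (ed x i) = a ∧ ed x i ∈ U then 1 else 0 := by
    intro x
    have := local_flip (fun i => c (ed x i)) (fun i => decide (ed x i ∈ U)) a b hab
      (fun i j hij => hg.1 x i j hij) (fun i hi => hU.1 _ (by simpa using hi))
      (fun i j hi hj => by
        by_cases hij : i = j
        · subst hij; exact hi
        · have hadj : (kagome n).Adj (ed x i) (ed x j) := by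
            rw [kagome_adj hn]
            exact ⟨fun h => hij h.2, Or.inl rfl⟩
          simpa using hU.2 _ (by simpa using hi) _ hadj hj)
    simpa [hc'] using this
  have hB : ∀ y : Pt n, od (c' (ed (y + dl n 0) 0)) (c' (ed (y + dl n 1) 1)) =
      od (c (ed (y + dl n 0) 0)) (c (ed (y + dl n 1) 1)) +
      ∑ i, if c (ed (y + dl n i) i) = a ∧ ed (y + dl n i) i ∈ U then 1 else 0 := by
    intro y
    have := local_flip (fun i => c (ed (y + dl n i) i)) (fun i => decide (ed (y + dl n i) i ∈ U))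
      a b hab
      (fun i j hij => hg.2 y i j hij) (fun i hi => hU.1 _ (by simpa using hi))
      (fun i j hi hj => by
        by_cases hij : i = j
        · subst hij; exact hi
        · have hadj : (kagome n).Adj (ed (y + dl n i) i) (ed (y + dl n j) j) := by
            rw [kagome_adj hn]
            exact ⟨fun h => hij h.2, Or.inr (by simp)⟩
          simpa using hU.2 _ (by simpa using hi) _ hadj hj)
    simpa [hc'] using this
  have key : (∑ y : Pt n, ∑ i, if c (ed (y + dl n i) i) = a ∧ ed (y + dl n i) i ∈ U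
      then (1 : ZMod 2) else 0) =
      ∑ x : Pt n, ∑ i, if c (ed x i) = a ∧ ed x i ∈ U then 1 else 0 := by
    rw [Finset.sum_comm, Finset.sum_comm (s := (Finset.univ : Finset (Pt n)))]
    refine Finset.sum_congr rfl fun i _ => ?_
    exact Fintype.sum_equiv (Equiv.addRight (dl n i)) _ _ (fun y => rfl)
  unfold par
  simp only [hA, hB, Finset.sum_add_distrib]
  rw [key]
  have h2 : ∀ s t r : ZMod 2, (s + r) + (t + r) = s + t := by decide
  exact h2 _ _ _

theorem par_reach {n : ℕ} [NeZero n] (hn : 2 ≤ n) {c c' : (kagome n).Coloring (Fin 3)}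
    (h : Relation.ReflTransGen KempeStep c c') :
    par (fun x i => c' (ed x i)) = par (fun x i => c (ed x i)) := by
  induction h with
  | refl => rfl
  | tail _ hs ih => rw [par_step hn hs, ih]

/-- two functions of the edge coordinates with different parities refute ergodicity -/
theorem not_ergodic {n : ℕ} [NeZero n] (hn : 2 ≤ n) {f g : Pt n → Fin 3 → Fin 3} (hf : Good f)
    (hg : Good g) (h : par f ≠ par g) : ¬ WSKErgodic (kagome n) 3 := by
  intro hE
  have := par_reach hn (hE (toCol (lift f) (lift_proper hn hf)) (toCol (lift g) (lift_proper hn hg)))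
  simp only [toCol_apply, lift_ed hn] at this
  exact h this.symm

end Pool.Agent.U697.Kag
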