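import Pool.Agent.U697.Kag.Spec

/-!
The WSK dynamics for three colours is not ergodic on the periodic kagome lattice `K_n`, `n ≥ 3`.
-/

namespace Pool.Agent.U697.Kag

open Pool.Agent.H411R2.WSK

def spec (n : ℕ) (x : Pt n) : Fin 3 → Fin 3 := tab (code n x.1.val x.2.val)

theorem val_succ {n : ℕ} (hn : 2 ≤ n) (x : ZMod n) :
    (x.val + 1 < n ∧ (x + 1).val = x.val + 1) ∨ (x.val + 1 = n ∧ (x + 1).val = 0) := by
  have : Fact (1 < n) := ⟨by omega⟩
  have : NeZero n := ⟨by omega⟩
  have h := ZMod.val_add x 1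
  rw [ZMod.val_one] at h
  have hx := ZMod.val_lt x
  rcases Nat.lt_or_ge (x.val + 1) n with h1 | h1
  · left
    rw [Nat.mod_eq_of_lt h1] at h
    exact ⟨h1, h⟩
  · right
    have h2 : x.val + 1 = n := by omega
    rw [h2, Nat.mod_self] at h
    exact ⟨h2, h⟩

theorem spec_key {n : ℕ} (hn : 3 ≤ n) (x y : ZMod n) :
    tab (code n x.val y.val) 0 ≠ tab (code n (x + 1).val y.val) 1 ∧
      tab (code n x.val y.val) 0 ≠ tab (code n x.val (y + 1).val) 2 ∧
      tab (code n (x + 1).val y.val) 1 ≠ tab (code n x.val (y + 1).val) 2 ∧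
      od (tab (code n x.val y.val) 0) (tab (code n x.val y.val) 1) +
        od (tab (code n x.val y.val) 0) (tab (code n (x + 1).val y.val) 1) =
        (if x.val + y.val = 0 ∨ x.val + y.val = n then 1 else 0) +
        (if x.val + y.val + 1 = n then 1 else 0) +
        (if x.val = 0 ∧ y.val = 1 then 1 else 0) + (if x.val = 1 ∧ y.val = 0 then 1 else 0) +
        (if x.val + 1 = n ∧ y.val + 1 = n then 1 else 0) :=
  haveI : NeZero n := ⟨by omega⟩
  code_key n x.val y.val (x + 1).val (y + 1).val hn (ZMod.val_lt x) (ZMod.val_lt y)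
    (val_succ (by omega) x) (val_succ (by omega) y)

theorem tab_inj : ∀ k i j, i ≠ j → tab k i ≠ tab k j := by decide

theorem spec_good {n : ℕ} (hn : 3 ≤ n) : Good (spec n) := by
  constructor
  · intro x i j hij
    exact tab_inj _ i j hij
  · rintro ⟨x, y⟩
    obtain ⟨h1, h2, h3, -⟩ := spec_key hn x y
    have e0 : spec n ((x, y) + dl n 0) 0 = tab (code n x.val y.val) 0 := by simp [spec, dl]
    have e1 : spec n ((x, y) + dl n 1) 1 = tab (code n (x + 1).val y.val) 1 := by simp [spec, dl]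
    have e2 : spec n ((x, y) + dl n 2) 2 = tab (code n x.val (y + 1).val) 2 := by simp [spec, dl]
    intro i j hij
    fin_cases i <;> fin_cases j <;> simp only [Fin.zero_eta, Fin.mk_one, Fin.reduceFinMk, ne_eq,
      not_true_eq_false] at hij ⊢
    · rw [e0, e1]; exact h1
    · rw [e0, e2]; exact h2
    · rw [e0, e1]; exact Ne.symm h1
    · rw [e1, e2]; exact h3
    · rw [e0, e2]; exact Ne.symm h2
    · rw [e1, e2]; exact Ne.symm h3

theorem add_eq_zero_iff_val {n : ℕ} [NeZero n] (x y : ZMod n) :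
    (x.val + y.val = 0 ∨ x.val + y.val = n) ↔ y = -x := by
  have hx := ZMod.val_lt x
  have hy := ZMod.val_lt y
  have h : (x + y).val = (x.val + y.val) % n := ZMod.val_add x y
  rw [eq_neg_iff_add_eq_zero, add_comm y x, ← ZMod.val_eq_zero, h]
  rcases Nat.lt_or_ge (x.val + y.val) n with h1 | h1
  · rw [Nat.mod_eq_of_lt h1]; omega
  · rw [Nat.mod_eq_sub_mod h1, Nat.mod_eq_of_lt (by omega)]; omega

theorem add_eq_neg_one_iff_val {n : ℕ} (hn : 2 ≤ n) (x y : ZMod n) :
    (x.val + y.val + 1 = n) ↔ y = -x - 1 := by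
  have : NeZero n := ⟨by omega⟩
  have hx := ZMod.val_lt x
  have hy := ZMod.val_lt y
  have h1 : y = -x - 1 ↔ y + 1 = -x := by
    constructor
    · rintro rfl; ring
    · intro h; rw [← h]; ring
  rw [h1, ← add_eq_zero_iff_val]
  rcases val_succ hn y with ⟨h2, h3⟩ | ⟨h2, h3⟩ <;> rw [h3] <;> omega

theorem val_eq_one_iff {n : ℕ} (hn : 2 ≤ n) (x : ZMod n) : x.val = 1 ↔ x = 1 := by
  have : Fact (1 < n) := ⟨by omega⟩
  constructor
  · intro h
    apply ZMod.val_injective
    rw [h, ZMod.val_one]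
  · rintro rfl
    exact ZMod.val_one n

theorem val_add_one_eq_iff {n : ℕ} (hn : 2 ≤ n) (x : ZMod n) : x.val + 1 = n ↔ x = -1 := by
  have := add_eq_neg_one_iff_val hn 0 x
  simpa using this

theorem par_spec {n : ℕ} [NeZero n] (hn : 3 ≤ n) : par (spec n) = 1 := by
  have h1 : par (spec n) = ∑ x : ZMod n, ∑ y : ZMod n,
      ((if y = -x then 1 else 0) + (if y = -x - 1 then 1 else 0) +
        (if x = 0 ∧ y = 1 then 1 else 0) + (if x = 1 ∧ y = 0 then 1 else 0) +
        (if x = -1 ∧ y = -1 then 1 else 0)) := by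
    rw [par, ← Finset.sum_add_distrib, Fintype.sum_prod_type]
    refine Finset.sum_congr rfl fun x _ => Finset.sum_congr rfl fun y _ => ?_
    have e0 : spec n ((x, y) + dl n 0) 0 = tab (code n x.val y.val) 0 := by simp [spec, dl]
    have e1 : spec n ((x, y) + dl n 1) 1 = tab (code n (x + 1).val y.val) 1 := by simp [spec, dl]
    have e2 : ∀ i, spec n (x, y) i = tab (code n x.val y.val) i := fun i => rfl
    rw [e0, e1, e2, e2, (spec_key hn x y).2.2.2]
    simp only [add_eq_zero_iff_val, add_eq_neg_one_iff_val (show 2 ≤ n by omega), ZMod.val_eq_zero,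
      val_eq_one_iff (show 2 ≤ n by omega), val_add_one_eq_iff (show 2 ≤ n by omega)]
  rw [h1]
  simp only [Finset.sum_add_distrib, Finset.sum_ite_eq', Finset.mem_univ, if_true, ite_and,
    Finset.sum_const, Finset.card_univ, ZMod.card, Finset.sum_ite_irrel, Finset.sum_const_zero]
  have : ∀ t : ZMod 2, t + t + 1 + 1 + 1 = 1 := by decide
  simpa using this _

/-- the constant colouring -/
def base (n : ℕ) (_ : Pt n) (i : Fin 3) : Fin 3 := i

theorem base_good (n : ℕ) : Good (base n) := ⟨fun _ _ _ h => h, fun _ _ _ h => h⟩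

theorem par_base (n : ℕ) [NeZero n] : par (base n) = 0 := by
  simp [par, base, od]

theorem kagome_not_ergodic {n : ℕ} (hn : 3 ≤ n) : ¬ WSKErgodic (kagome n) 3 := by
  haveI : NeZero n := ⟨by omega⟩
  refine not_ergodic (by omega) (base_good n) (spec_good hn) ?_
  rw [par_base, par_spec hn]
  decide

end Pool.Agent.U697.Kag
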