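import Pool.Agent.U697.Kag.Basic

/-!
For every `n ≥ 3` a proper colouring of the periodic kagome lattice with an odd number of negatively
oriented vertices.
-/

namespace Pool.Agent.U697.Kag

open Pool.Agent.H411R2.WSK

def tab : Fin 6 → Fin 3 → Fin 3 :=
  ![![0, 1, 2], ![1, 2, 0], ![2, 0, 1], ![0, 2, 1], ![1, 0, 2], ![2, 1, 0]]

def code (n i j : ℕ) : Fin 6 :=
  if i = 0 then (if j = 0 then 0 else if j = 1 then 2 else if j + 1 = n then 1 else 5)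
  else if j = 0 then (if i = 1 then 1 else if i + 1 = n then 2 else 4)
  else if i + j = n then (if i = 1 then 2 else if j = 1 then 1 else 3)
  else 0

theorem code_cases (n i j : ℕ) :
    (code n i j = 0 ∧ ((i = 0 ∧ j = 0) ∨ (i ≠ 0 ∧ j ≠ 0 ∧ i + j ≠ n))) ∨
    (code n i j = 1 ∧ ((i = 0 ∧ j ≠ 0 ∧ j ≠ 1 ∧ j + 1 = n) ∨ (j = 0 ∧ i = 1) ∨
      (i ≠ 0 ∧ i + j = n ∧ i ≠ 1 ∧ j = 1))) ∨
    (code n i j = 2 ∧ ((i = 0 ∧ j = 1) ∨ (j = 0 ∧ i ≠ 0 ∧ i ≠ 1 ∧ i + 1 = n) ∨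
      (i = 1 ∧ j ≠ 0 ∧ i + j = n))) ∨
    (code n i j = 3 ∧ (i ≠ 0 ∧ i ≠ 1 ∧ j ≠ 0 ∧ j ≠ 1 ∧ i + j = n)) ∨
    (code n i j = 4 ∧ (j = 0 ∧ i ≠ 0 ∧ i ≠ 1 ∧ i + 1 ≠ n)) ∨
    (code n i j = 5 ∧ (i = 0 ∧ j ≠ 0 ∧ j ≠ 1 ∧ j + 1 ≠ n)) := by
  unfold code
  split_ifs <;> simp <;> omega

theorem code_key (n i j i' j' : ℕ) (hn : 3 ≤ n) (hi : i < n) (hj : j < n)
    (hi' : (i + 1 < n ∧ i' = i + 1) ∨ (i + 1 = n ∧ i' = 0))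
    (hj' : (j + 1 < n ∧ j' = j + 1) ∨ (j + 1 = n ∧ j' = 0)) :
    tab (code n i j) 0 ≠ tab (code n i' j) 1 ∧ tab (code n i j) 0 ≠ tab (code n i j') 2 ∧
      tab (code n i' j) 1 ≠ tab (code n i j') 2 ∧
      od (tab (code n i j) 0) (tab (code n i j) 1) + od (tab (code n i j) 0) (tab (code n i' j) 1) =
        (if i + j = 0 ∨ i + j = n then 1 else 0) + (if i + j + 1 = n then 1 else 0) +
        (if i = 0 ∧ j = 1 then 1 else 0) + (if i = 1 ∧ j = 0 then 1 else 0) +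
        (if i + 1 = n ∧ j + 1 = n then 1 else 0) := by
  rcases code_cases n i j with ⟨e1, h1⟩ | ⟨e1, h1⟩ | ⟨e1, h1⟩ | ⟨e1, h1⟩ | ⟨e1, h1⟩ | ⟨e1, h1⟩ <;>
  rcases code_cases n i' j with ⟨e2, h2⟩ | ⟨e2, h2⟩ | ⟨e2, h2⟩ | ⟨e2, h2⟩ | ⟨e2, h2⟩ | ⟨e2, h2⟩ <;>
  first
  | (exfalso; omega)
  | (rcases code_cases n i j' with ⟨e3, h3⟩ | ⟨e3, h3⟩ | ⟨e3, h3⟩ | ⟨e3, h3⟩ | ⟨e3, h3⟩ | ⟨e3, h3⟩ <;>
      first
      | (exfalso; omega)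
      | (rw [e1, e2, e3]
         refine ⟨by decide, by decide, by decide, ?_⟩
         split_ifs <;> first | (exfalso; omega) | decide))

end Pool.Agent.U697.Kag
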