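import Pool.Agent.U697.Kag.Non

/-!
The WSK dynamics for three colours is ergodic on the periodic kagome lattice `K_2`.
-/

namespace Pool.Agent.U697.Kag

open Pool.Agent.H411R2.WSK

theorem conn_of_u {n : ℕ} [NeZero n] (hn : 2 ≤ n) {f f' : Pt n → Fin 3 → Fin 3} (hf : Good f)
    {a b : Fin 3} (hab : a ≠ b) (u : Pt n → Fin 3 → Bool)
    (h1 : ∀ x i, u x i = true → f x i = a ∨ f x i = b)
    (h2 : ∀ x i y j, u x i = true → (x = y ∨ x - dl n i = y - dl n j) →
      (f y j = a ∨ f y j = b) → u y j = true)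
    (h3 : ∀ x i, f' x i = if u x i = true then Equiv.swap a b (f x i) else f x i) :
    Conn (kagome n) (lift f) (lift f') := by
  have hmem : ∀ x i, ed x i ∈ {e : (honeycomb n).edgeSet | ∃ x i, e = ed x i ∧ u x i = true} ↔
      u x i = true := by
    intro x i
    constructor
    · rintro ⟨y, j, h, h'⟩
      obtain ⟨rfl, rfl⟩ := ed_inj hn h
      exact h'
    · intro h
      exact ⟨x, i, rfl, h⟩
  refine conn_of_closed (lift_proper hn hf) hab
    (U := {e : (honeycomb n).edgeSet | ∃ x i, e = ed x i ∧ u x i = true}) ⟨?_, ?_⟩ ⟨?_, ?_⟩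
  · rintro e ⟨x, i, rfl, h⟩
    rw [lift_ed hn]
    exact h1 x i h
  · rintro e ⟨x, i, rfl, h⟩ w hadj hw
    obtain ⟨y, j, rfl⟩ := ed_surj w
    rw [kagome_adj hn] at hadj
    rw [lift_ed hn] at hw
    rw [hmem]
    exact h2 x i y j h hadj.2 hw
  · intro e he
    obtain ⟨x, i, rfl⟩ := ed_surj e
    rw [hmem] at he
    rw [lift_ed hn, lift_ed hn, h3, if_pos he]
  · intro e he
    obtain ⟨x, i, rfl⟩ := ed_surj e
    rw [hmem] at he
    rw [lift_ed hn, lift_ed hn, h3, if_neg he]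

/-- the four colourings of `K_2` up to a permutation of the colours -/
def four (t : Fin 4) (x : Pt 2) : Fin 3 → Fin 3 :=
  if t = 1 ∧ x.2 = 0 then tab 4 else if t = 2 ∧ x.1 + x.2 = 0 then tab 3
  else if t = 3 ∧ x.1 = 0 then tab 5 else tab 0

theorem four_zero : four 0 = base 2 := by decide

/-- the codes at the four points give a function -/
def fn (k0 k1 k2 k3 : Fin 6) (x : Pt 2) : Fin 6 :=
  if x.1 = 0 then (if x.2 = 0 then k0 else k1) else (if x.2 = 0 then k2 else k3)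

theorem fn_eq (k : Pt 2 → Fin 6) : fn (k (0, 0)) (k (0, 1)) (k (1, 0)) (k (1, 1)) = k := by
  funext x
  obtain ⟨x, y⟩ := x
  have hx : x = 0 ∨ x = 1 := by revert x; decide
  have hy : y = 0 ∨ y = 1 := by revert y; decide
  rcases hx with rfl | rfl <;> rcases hy with rfl | rfl <;> rfl

theorem classify : ∀ k0 k1 k2 k3 : Fin 6,
    (∀ y : Pt 2, tab (fn k0 k1 k2 k3 (y + dl 2 0)) 0 ≠ tab (fn k0 k1 k2 k3 (y + dl 2 1)) 1 ∧
      tab (fn k0 k1 k2 k3 (y + dl 2 0)) 0 ≠ tab (fn k0 k1 k2 k3 (y + dl 2 2)) 2 ∧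
      tab (fn k0 k1 k2 k3 (y + dl 2 1)) 1 ≠ tab (fn k0 k1 k2 k3 (y + dl 2 2)) 2) →
    ∃ s : Fin 6, ∃ t : Fin 4, ∀ x i, tab (fn k0 k1 k2 k3 x) i = tab s (four t x i) := by
  decide +kernel

theorem tab_surj : ∀ p0 p1 p2 : Fin 3, p0 ≠ p1 → p0 ≠ p2 → p1 ≠ p2 →
    ∃ k : Fin 6, tab k 0 = p0 ∧ tab k 1 = p1 ∧ tab k 2 = p2 := by
  decide

theorem exists_four {f : Pt 2 → Fin 3 → Fin 3} (hf : Good f) :
    ∃ s : Fin 6, ∃ t : Fin 4, ∀ x i, f x i = tab s (four t x i) := by
  have h1 : ∀ x, ∃ k : Fin 6, ∀ i, f x i = tab k i := by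
    intro x
    obtain ⟨k, e0, e1, e2⟩ := tab_surj (f x 0) (f x 1) (f x 2) (hf.1 x 0 1 (by decide))
      (hf.1 x 0 2 (by decide)) (hf.1 x 1 2 (by decide))
    refine ⟨k, fun i => ?_⟩
    fin_cases i
    · exact e0.symm
    · exact e1.symm
    · exact e2.symm
  choose k hk using h1
  obtain ⟨s, t, h⟩ := classify (k (0, 0)) (k (0, 1)) (k (1, 0)) (k (1, 1)) (by
    rw [fn_eq]
    intro y
    simp only [← hk]
    exact ⟨hf.2 y 0 1 (by decide), hf.2 y 0 2 (by decide), hf.2 y 1 2 (by decide)⟩)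
  rw [fn_eq] at h
  exact ⟨s, t, fun x i => by rw [hk, h]⟩

theorem conn_four (t : Fin 4) : Conn (kagome 2) (lift (base 2)) (lift (four t)) := by
  have ht : t = 0 ∨ t = 1 ∨ t = 2 ∨ t = 3 := by revert t; decide
  rcases ht with rfl | rfl | rfl | rfl
  · rw [four_zero]
    exact Conn.refl (lift_proper le_rfl (base_good 2))
  · exact conn_of_u le_rfl (base_good 2) (a := 0) (b := 1) (by decide)
      (fun x i => decide (x.2 = 0 ∧ i ≠ 2)) (by decide) (by decide) (by decide)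
  · exact conn_of_u le_rfl (base_good 2) (a := 1) (b := 2) (by decide)
      (fun x i => decide (x.1 + x.2 = 0 ∧ i ≠ 0)) (by decide) (by decide) (by decide)
  · exact conn_of_u le_rfl (base_good 2) (a := 0) (b := 2) (by decide)
      (fun x i => decide (x.1 = 0 ∧ i ≠ 1)) (by decide) (by decide) (by decide)

theorem tab_bij (s : Fin 6) : Function.Bijective (tab s) :=
  Finite.injective_iff_bijective.mp (fun i j h => by
    by_contra hij
    exact tab_inj s i j hij h)

theorem kagome_two_ergodic : WSKErgodic (kagome 2) 3 := by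
  haveI : Finite (honeycomb 2).edgeSet := inferInstance
  refine ergodic_of_conn (base := lift (base 2)) fun c hc => ?_
  obtain ⟨s, t, h⟩ := exists_four ((proper_iff le_rfl c).mp hc)
  have h1 := conn_four t
  obtain ⟨-, hp, -⟩ := h1
  have h2 := Conn.perm hp (Equiv.ofBijective _ (tab_bij s))
  have h3 : (fun v => Equiv.ofBijective _ (tab_bij s) (lift (four t) v)) = c := by
    apply ext_ed
    intro x i
    rw [lift_ed le_rfl, Equiv.ofBijective_apply]
    exact (h x i).symm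
  rw [h3] at h2
  exact h2.symm.trans (conn_four t).symm

end Pool.Agent.U697.Kag
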